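import Mathlib

set_option autoImplicit false

namespace Pool.Agent.H.MP_5036fd_co

open Finset

/-- uniform probability of an event on the discrete cube -/
noncomputable def pr {ι : Type} [Fintype ι] [DecidableEq ι] (P : (ι → Bool) → Prop)
    [DecidablePred P] : ℝ :=
  ((univ.filter P).card : ℝ) / 2 ^ Fintype.card ι

/-- total influence -/
noncomputable def infl {ι : Type} [Fintype ι] [DecidableEq ι] (f : (ι → Bool) → Bool) : ℝ :=
  ∑ i, pr (fun x => f x ≠ f (Function.update x i (!x i)))

section
variable {κ A : Type} [Fintype κ] [DecidableEq κ] [Fintype A] [DecidableEq A]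

theorem half {Ω : Type} [Fintype Ω] (τ : Ω → Ω) (hτ : ∀ w, τ (τ w) = w)
    (D E : Ω → Prop) [DecidablePred D] [DecidablePred E] (hD : ∀ w, D w → D (τ w))
    (hE : ∀ w, D w → (E (τ w) ↔ ¬ E w)) :
    2 * (univ.filter (fun w => D w ∧ E w)).card = (univ.filter D).card := by
  have h1 : (univ.filter (fun w => D w ∧ E w)).card
      = (univ.filter (fun w => D w ∧ ¬ E w)).card := by
    refine card_nbij' τ τ ?_ ?_ (fun w _ => hτ w) (fun w _ => hτ w)
    · intro w hw
      simp only [coe_filter, mem_univ, true_and, Set.mem_ofPred_eq] at hw ⊢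
      exact ⟨hD w hw.1, fun h => (hE w hw.1).mp h hw.2⟩
    · intro w hw
      simp only [coe_filter, mem_univ, true_and, Set.mem_ofPred_eq] at hw ⊢
      exact ⟨hD w hw.1, (hE w hw.1).mpr hw.2⟩
  have h2 := card_filter_add_card_filter_not (s := univ.filter D) E
  rw [filter_filter, filter_filter] at h2
  omega

theorem lift (P : (κ → Bool) → Prop) [DecidablePred P] :
    pr (fun w : κ ⊕ A → Bool => P (fun j => w (Sum.inl j))) = pr P := by
  have h : (univ.filter (fun w : κ ⊕ A → Bool => P (fun j => w (Sum.inl j)))).card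
      = ((univ.filter P) ×ˢ (univ : Finset (A → Bool))).card := by
    refine card_nbij' (fun w => (fun j => w (Sum.inl j), fun a => w (Sum.inr a)))
      (fun p => Sum.elim p.1 p.2) ?_ ?_ ?_ ?_
    · intro w hw
      simpa using hw
    · intro p hp
      simpa using hp
    · intro w _
      funext i
      cases i <;> rfl
    · intro p _
      rfl
  unfold pr
  rw [h, card_product, card_univ, Fintype.card_sum, pow_add]
  simp only [Fintype.card_pi, Fintype.card_bool, prod_const, card_univ, Nat.cast_mul, Nat.cast_pow,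
    Nat.cast_ofNat]
  field_simp

variable (π : (κ → Bool) → A)

def ad (w : κ ⊕ A → Bool) : A := π (fun j => w (Sum.inl j))

def ff (w : κ ⊕ A → Bool) : Bool := w (Sum.inr (ad π w))

def tau (w : κ ⊕ A → Bool) : κ ⊕ A → Bool :=
  Function.update w (Sum.inr (ad π w)) (!w (Sum.inr (ad π w)))

omit [Fintype κ] [Fintype A] in
theorem ad_upd (w : κ ⊕ A → Bool) (a : A) (b : Bool) :
    ad π (Function.update w (Sum.inr a) b) = ad π w := by
  unfold ad
  congr 1

omit [Fintype κ] [Fintype A] in
theorem ad_tau (w : κ ⊕ A → Bool) : ad π (tau π w) = ad π w := ad_upd π w _ _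

omit [Fintype κ] [Fintype A] in
theorem tau_tau (w : κ ⊕ A → Bool) : tau π (tau π w) = w := by
  have h := ad_tau π w
  unfold tau at h ⊢
  rw [h]
  simp

omit [Fintype κ] [Fintype A] in
theorem ff_tau (w : κ ⊕ A → Bool) : ff π (tau π w) = !ff π w := by
  unfold ff
  rw [ad_tau]
  simp [tau]

theorem mu : pr (fun w => ff π w = true) = 1 / 2 := by
  have h := half (tau π) (tau_tau π) (fun _ => True) (fun w => ff π w = true) (fun _ _ => trivial)
    (fun w _ => by rw [ff_tau]; simp)
  simp only [true_and, filter_true, card_univ, Fintype.card_pi, Fintype.card_bool,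
    prod_const] at h
  unfold pr
  have h' : (2 : ℝ) * ((univ.filter (fun w => ff π w = true)).card : ℝ)
      = 2 ^ Fintype.card (κ ⊕ A) := by exact_mod_cast h
  rw [← h']
  have : (0 : ℝ) < 2 * ((univ.filter (fun w => ff π w = true)).card : ℝ) := by
    rw [h']; positivity
  have h0 : ((univ.filter (fun w => ff π w = true)).card : ℝ) ≠ 0 := by
    intro h0
    rw [h0] at this
    simp at this
  field_simp

theorem infl_r : ∑ a : A, pr (fun x : κ ⊕ A → Bool =>
    ff π x ≠ ff π (Function.update x (Sum.inr a) (!x (Sum.inr a)))) = 1 := by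
  have h : ∀ a : A, (univ.filter (fun x : κ ⊕ A → Bool =>
      ff π x ≠ ff π (Function.update x (Sum.inr a) (!x (Sum.inr a)))))
      = univ.filter (fun x => ad π x = a) := by
    intro a
    refine filter_congr fun x _ => ?_
    unfold ff
    rw [ad_upd]
    by_cases h : ad π x = a
    · simp [h]
    · simp [h]
  unfold pr
  simp only [h]
  rw [← sum_div, ← Nat.cast_sum, ← card_eq_sum_card_fiberwise (fun _ _ => mem_univ _)]
  simp

theorem infl_l (j : κ) : pr (fun x : κ ⊕ A → Bool =>
    ff π x ≠ ff π (Function.update x (Sum.inl j) (!x (Sum.inl j))))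
    = pr (fun u => π u ≠ π (Function.update u j (!u j))) / 2 := by
  have e : ∀ x : κ ⊕ A → Bool, ad π (Function.update x (Sum.inl j) (!x (Sum.inl j)))
      = π (Function.update (fun i => x (Sum.inl i)) j (!x (Sum.inl j))) := by
    intro x
    unfold ad
    congr 1
    funext i
    by_cases h : i = j
    · simp [h]
    · simp [h]
  rw [← lift (A := A) (fun u => π u ≠ π (Function.update u j (!u j)))]
  have h := half (tau π) (tau_tau π)
    (fun x => π (fun i => x (Sum.inl i)) ≠
      π (Function.update (fun i => x (Sum.inl i)) j (!x (Sum.inl j))))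
    (fun x => ff π x ≠ ff π (Function.update x (Sum.inl j) (!x (Sum.inl j)))) ?_ ?_
  · unfold pr
    rw [← h]
    have : (univ.filter (fun x : κ ⊕ A → Bool =>
        ff π x ≠ ff π (Function.update x (Sum.inl j) (!x (Sum.inl j))))) =
        univ.filter (fun x => (π (fun i => x (Sum.inl i)) ≠
      π (Function.update (fun i => x (Sum.inl i)) j (!x (Sum.inl j)))) ∧
        ff π x ≠ ff π (Function.update x (Sum.inl j) (!x (Sum.inl j)))) := by
      refine filter_congr fun x _ => ⟨fun h => ⟨fun h' => h ?_, h⟩, fun h => h.2⟩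
      unfold ff
      rw [e, ← h']
      simp [ad]
    rw [this]
    push_cast
    ring
  · intro w hw
    simpa [tau] using hw
  · intro w hw
    rw [ff_tau]
    have h1 : ff π (Function.update (tau π w) (Sum.inl j) (!tau π w (Sum.inl j)))
        = ff π (Function.update w (Sum.inl j) (!w (Sum.inl j))) := by
      unfold ff
      rw [e, e]
      have h2 : (fun i => tau π w (Sum.inl i)) = fun i => w (Sum.inl i) := by
        funext i; simp [tau]
      have h3 : tau π w (Sum.inl j) = w (Sum.inl j) := by simp [tau]
      rw [h2, h3]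
      have h4 : π (Function.update (fun i => w (Sum.inl i)) j (!w (Sum.inl j))) ≠ ad π w :=
        fun h => hw h.symm
      simp [tau, h4]
    rw [h1]
    cases ff π w <;> cases ff π (Function.update w (Sum.inl j) (!w (Sum.inl j))) <;> simp

theorem err (g : (κ ⊕ A → Bool) → Bool) (J : Finset (κ ⊕ A))
    (hg : ∀ x y, (∀ j ∈ J, x j = y j) → g x = g y) :
    pr (fun u => Sum.inr (π u) ∉ J) / 2 ≤ pr (fun x => ff π x ≠ g x) := by
  rw [← lift (A := A)]
  have h := half (tau π) (tau_tau π) (fun x => Sum.inr (π (fun i => x (Sum.inl i))) ∉ J)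
    (fun x => ff π x ≠ g x) ?_ ?_
  · unfold pr
    rw [← h]
    have : (univ.filter (fun x : κ ⊕ A → Bool => Sum.inr (π (fun i => x (Sum.inl i))) ∉ J ∧
        ff π x ≠ g x)).card ≤ (univ.filter (fun x => ff π x ≠ g x)).card :=
      card_le_card (monotone_filter_right _ (fun x _ h => h.2))
    have h2 : ((univ.filter (fun x : κ ⊕ A → Bool => Sum.inr (π (fun i => x (Sum.inl i))) ∉ J ∧
        ff π x ≠ g x)).card : ℝ) ≤ (univ.filter (fun x => ff π x ≠ g x)).card := by
      exact_mod_cast this
    push_cast
    rw [mul_div_assoc, mul_div_cancel_left₀ _ (two_ne_zero)]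
    exact div_le_div_of_nonneg_right h2 (by positivity)
  · intro w hw
    simpa [tau] using hw
  · intro w hw
    have h1 : g (tau π w) = g w := by
      refine hg _ _ fun j hj => ?_
      have : j ≠ Sum.inr (ad π w) := fun h => hw (by rw [h] at hj; exact hj)
      simp [tau, this]
    rw [ff_tau, h1]
    cases ff π w <;> cases g w <;> simp

end

def pp (t k : ℕ) (u : Fin t ⊕ Fin k → Bool) : Option (Fin k → Bool) :=
  if ∀ i, u (Sum.inl i) = true then some (fun j => u (Sum.inr j)) else none

theorem c1 (t k : ℕ) :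
    (univ.filter (fun u : Fin t ⊕ Fin k → Bool => ∀ i, u (Sum.inl i) = true)).card ≤ 2 ^ k := by
  have : (univ : Finset (Fin k → Bool)).card = 2 ^ k := by simp
  rw [← this]
  refine card_le_card_of_injOn (fun u j => u (Sum.inr j)) (fun _ _ => by simp) ?_
  intro u hu v hv h
  simp only [coe_filter, mem_univ, true_and, Set.mem_ofPred_eq] at hu hv
  funext i
  cases i with
  | inl i => rw [hu, hv]
  | inr j => exact congrFun h j

theorem p1 (t k : ℕ) (j : Fin k) :
    pr (fun u => pp t k u ≠ pp t k (Function.update u (Sum.inr j) (!u (Sum.inr j))))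
      ≤ 1 / 2 ^ t := by
  have h : (univ.filter (fun u => pp t k u ≠
      pp t k (Function.update u (Sum.inr j) (!u (Sum.inr j))))).card ≤ 2 ^ k := by
    refine le_trans (card_le_card (monotone_filter_right _ fun u _ h => ?_)) (c1 t k)
    by_contra hn
    apply h
    simp [pp, hn]
  unfold pr
  rw [Fintype.card_sum, Fintype.card_fin, Fintype.card_fin, pow_add, div_le_div_iff₀ (by positivity)
    (by positivity), one_mul, mul_comm]
  exact mul_le_mul_of_nonneg_left (by exact_mod_cast h) (by positivity)

theorem p2 (t k : ℕ) (i : Fin t) :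
    pr (fun u => pp t k u ≠ pp t k (Function.update u (Sum.inl i) (!u (Sum.inl i))))
      ≤ 2 / 2 ^ t := by
  have h0 : (univ.filter (fun u : Fin t ⊕ Fin k → Bool => ∀ i',
      Function.update u (Sum.inl i) (!u (Sum.inl i)) (Sum.inl i') = true)).card ≤ 2 ^ k := by
    refine le_trans ?_ (c1 t k)
    refine card_le_card_of_injOn (fun u => Function.update u (Sum.inl i) (!u (Sum.inl i)))
      (fun u hu => by simpa using hu) ?_
    intro u _ v _ h
    funext s
    have := congrFun h s
    by_cases hs : s = Sum.inl i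
    · subst hs
      simpa using this
    · simpa [hs] using this
  have h : (univ.filter (fun u => pp t k u ≠
      pp t k (Function.update u (Sum.inl i) (!u (Sum.inl i))))).card ≤ 2 * 2 ^ k := by
    rw [two_mul]
    refine le_trans (card_le_card fun u hu => ?_)
      ((card_union_le _ _).trans (add_le_add (c1 t k) h0))
    by_contra hn
    simp only [mem_union, mem_filter, mem_univ, true_and, not_or] at hn hu
    apply hu
    unfold pp
    rw [if_neg hn.1, if_neg hn.2]
  unfold pr
  rw [Fintype.card_sum, Fintype.card_fin, Fintype.card_fin, pow_add, div_le_div_iff₀ (by positivity)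
    (by positivity), mul_left_comm, mul_comm]
  exact mul_le_mul_of_nonneg_left (by exact_mod_cast h) (by positivity)

theorem p3 (t k : ℕ) (J : Finset ((Fin t ⊕ Fin k) ⊕ Option (Fin k → Bool))) :
    (2 ^ k - (J.card : ℝ)) / (2 ^ t * 2 ^ k) ≤ pr (fun u => Sum.inr (pp t k u) ∉ J) := by
  have h1 : (univ.filter (fun a : Fin k → Bool => Sum.inr (some a) ∈ J)).card ≤ J.card := by
    refine card_le_card_of_injOn (fun a => Sum.inr (some a)) (fun a ha => by simpa using ha) ?_
    intro a _ b _ h
    simpa using h
  have h2 : (univ.filter (fun a : Fin k → Bool => ¬ Sum.inr (some a) ∈ J)).card ≤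
      (univ.filter (fun u => Sum.inr (pp t k u) ∉ J)).card := by
    refine card_le_card_of_injOn (fun a => Sum.elim (fun _ => true) a)
      (fun a ha => by
        simp only [coe_filter, mem_univ, true_and, Set.mem_ofPred_eq] at ha ⊢
        simpa [pp] using ha) ?_
    intro a _ b _ h
    funext j
    exact congrFun h (Sum.inr j)
  have h3 := card_filter_add_card_filter_not (s := (univ : Finset (Fin k → Bool)))
    (fun a => Sum.inr (some a) ∈ J)
  have h4 : (univ : Finset (Fin k → Bool)).card = 2 ^ k := by simp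
  have h5 : 2 ^ k ≤ J.card + (univ.filter (fun u => Sum.inr (pp t k u) ∉ J)).card := by omega
  have h6 : (2 : ℝ) ^ k ≤ J.card + (univ.filter (fun u => Sum.inr (pp t k u) ∉ J)).card := by
    exact_mod_cast h5
  unfold pr
  rw [Fintype.card_sum, Fintype.card_fin, Fintype.card_fin, pow_add]
  exact div_le_div_of_nonneg_right (by linarith) (by positivity)

theorem infl_le (t k : ℕ) : infl (ff (pp t k)) ≤ 1 + (k / 2 + t) / 2 ^ t := by
  unfold infl
  rw [Fintype.sum_sum_type, infl_r, Fintype.sum_sum_type]
  simp only [infl_l]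
  have a1 := sum_le_card_nsmul univ _ _ (fun i (_ : i ∈ univ) =>
    div_le_div_of_nonneg_right (p2 t k i) (zero_le_two (α := ℝ)))
  have a2 := sum_le_card_nsmul univ _ _ (fun j (_ : j ∈ univ) =>
    div_le_div_of_nonneg_right (p1 t k j) (zero_le_two (α := ℝ)))
  simp only [card_univ, Fintype.card_fin, nsmul_eq_mul] at a1 a2
  have : ((k : ℝ) / 2 + t) / 2 ^ t = t * (2 / 2 ^ t / 2) + k * (1 / 2 ^ t / 2) := by ring
  linarith

end Pool.Agent.H.MP_5036fd_co
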